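import Mathlib

/-!
# The fixed-point proportion of finitely generated subgroups of a group with `FPP = 0`

On the binary rooted tree let `G` be the closed group of all translations of the boundary
`(ℤ/2)^ℕ`. It is infinite and acts freely on the boundary, so `FPP(G) = 0`. All its finitely
generated subgroups are finite and so have positive fixed-point proportion.
-/

set_option autoImplicit false

namespace Pool.Agent.Results.MP_12ef09_al.RandomSubgroups

open Filter Topology MeasureTheory

/-- The vertices of the binary rooted tree: the finite words over `ℤ/2`. The root is the empty word,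
and the children of `w` are the words `w ++ [x]`. The level of a vertex is its length. -/
abbrev Vertex : Type := List (ZMod 2)

/-- The automorphism group of the binary rooted tree: the permutations of the vertices which
preserve the levels and the relation of being a prefix (an ancestor). -/
def treeAut : Subgroup (Equiv.Perm Vertex) where
  carrier := {g | (∀ v, (g v).length = v.length) ∧ ∀ v w : Vertex, v <+: w ↔ g v <+: g w}
  mul_mem' := by
    rintro g h ⟨hg, hg'⟩ ⟨hh, hh'⟩
    refine ⟨fun v => ?_, fun v w => ?_⟩
    · rw [Equiv.Perm.mul_apply, hg, hh]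
    · rw [Equiv.Perm.mul_apply, Equiv.Perm.mul_apply, ← hg', ← hh']
  one_mem' := ⟨fun _ => rfl, fun _ _ => Iff.rfl⟩
  inv_mem' := by
    rintro g ⟨hg, hg'⟩
    have h : ∀ v, g (g⁻¹ v) = v := fun v => g.apply_symm_apply v
    refine ⟨fun v => ?_, fun v w => ?_⟩
    · have := hg (g⁻¹ v)
      rw [← this, h]
    · rw [hg' (g⁻¹ v) (g⁻¹ w), h, h]

/-- The subgroup `G` is contained in the automorphism group of the tree and closed in it for the
profinite topology: it contains every tree automorphism which agrees, on the levels at most `k`,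
with an element of `G`, for every `k`. -/
def IsClosedSubgroup (G : Subgroup (Equiv.Perm Vertex)) : Prop :=
  G ≤ treeAut ∧ ∀ g ∈ treeAut, (∀ k : ℕ, ∃ h ∈ G, ∀ v : Vertex, v.length ≤ k → h v = g v) → g ∈ G

/-- The action of `g` on the level `k`. -/
def restrictLevel (k : ℕ) (g : Equiv.Perm Vertex) : {v : Vertex // v.length = k} → Vertex :=
  fun v => g v

/-- `π_k(H)`: the set of all actions of elements of `H` on the level `k`. -/
def levelGroup (H : Subgroup (Equiv.Perm Vertex)) (k : ℕ) :
    Set ({v : Vertex // v.length = k} → Vertex) :=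
  restrictLevel k '' (H : Set (Equiv.Perm Vertex))

/-- `p_k(H)`: the proportion of the elements of `π_k(H)` which fix a vertex of level `k`. -/
noncomputable def proportion (H : Subgroup (Equiv.Perm Vertex)) (k : ℕ) : ℝ :=
  ({f | f ∈ levelGroup H k ∧ ∃ v, f v = v.1}.ncard : ℝ) / (levelGroup H k).ncard

/-- `FPP(H) = x`: the sequence `p_k(H)` converges to `x`. -/
def HasFPP (H : Subgroup (Equiv.Perm Vertex)) (x : ℝ) : Prop :=
  Tendsto (proportion H) atTop (𝓝 x)

/-! ### The translations -/

/-- the translation by `u` -/
def trFun : (ℕ → ZMod 2) → Vertex → Vertex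
  | _, [] => []
  | u, x :: w => (x + u 0) :: trFun (fun i => u (i + 1)) w

lemma trFun_trFun (u v : ℕ → ZMod 2) (w : Vertex) : trFun u (trFun v w) = trFun (u + v) w := by
  induction w generalizing u v with
  | nil => rfl
  | cons x w ih =>
    simp only [trFun, ih]
    congr 1
    rw [Pi.add_apply]
    ring

lemma trFun_zero (w : Vertex) : trFun 0 w = w := by
  induction w with
  | nil => rfl
  | cons x w ih =>
    simp only [trFun]
    rw [show (fun i => (0 : ℕ → ZMod 2) (i + 1)) = 0 from rfl, ih]
    simp

lemma length_trFun (u : ℕ → ZMod 2) (w : Vertex) : (trFun u w).length = w.length := by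
  induction w generalizing u with
  | nil => rfl
  | cons x w ih => simp [trFun, ih]

lemma trFun_append (u : ℕ → ZMod 2) (v w : Vertex) :
    trFun u (v ++ w) = trFun u v ++ trFun (fun i => u (i + v.length)) w := by
  induction v generalizing u with
  | nil => rfl
  | cons x v ih =>
    simp only [List.cons_append, trFun, ih, List.length_cons]
    congr 3

lemma trFun_getElem (u : ℕ → ZMod 2) (w : Vertex) (i : ℕ) :
    (trFun u w)[i]? = (w[i]?).map (fun x => x + u i) := by
  induction w generalizing u i with
  | nil => simp [trFun]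
  | cons x w ih =>
    cases i with
    | zero => simp [trFun]
    | succ i => simp [trFun, ih]

/-- the translations as permutations -/
def tr : Multiplicative (ℕ → ZMod 2) →* Equiv.Perm Vertex where
  toFun u :=
    { toFun := trFun u.toAdd
      invFun := trFun (-u.toAdd)
      left_inv := fun w => by rw [trFun_trFun, neg_add_cancel, trFun_zero]
      right_inv := fun w => by rw [trFun_trFun, add_neg_cancel, trFun_zero] }
  map_one' := by
    ext1 w
    exact trFun_zero w
  map_mul' u v := by
    ext1 w
    exact (trFun_trFun _ _ w).symm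

lemma tr_apply (u : Multiplicative (ℕ → ZMod 2)) (w : Vertex) : tr u w = trFun u.toAdd w := rfl

/-- the group of translations -/
def G : Subgroup (Equiv.Perm Vertex) := tr.range

lemma G_le : G ≤ treeAut := by
  rintro _ ⟨u, rfl⟩
  refine ⟨fun v => length_trFun _ _, fun v w => ?_⟩
  have key : ∀ (u : ℕ → ZMod 2) (v w : Vertex), v <+: w → trFun u v <+: trFun u w := by
    rintro u v _ ⟨t, rfl⟩
    rw [trFun_append]
    exact List.prefix_append _ _
  refine ⟨key _ v w, fun h => ?_⟩
  have h1 := key (-u.toAdd) _ _ h
  rwa [tr_apply, tr_apply, trFun_trFun, trFun_trFun, neg_add_cancel, trFun_zero, trFun_zero] at h1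

/-- a translation which fixes a vertex of level `k` acts trivially on the levels up to `k` -/
lemma trFun_fix {u : ℕ → ZMod 2} {w : Vertex} (h : trFun u w = w) (i : ℕ) (hi : i < w.length) :
    u i = 0 := by
  have h1 := trFun_getElem u w i
  rw [h, List.getElem?_eq_getElem hi, Option.map_some, Option.some.injEq] at h1
  exact left_eq_add.mp h1

lemma trFun_eq {u : ℕ → ZMod 2} {w : Vertex} (h : ∀ i < w.length, u i = 0) : trFun u w = w := by
  apply List.ext_getElem?
  intro i
  rw [trFun_getElem]
  by_cases hi : i < w.length
  · rw [List.getElem?_eq_getElem hi, Option.map_some, h i hi, add_zero]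
  · rw [List.getElem?_eq_none (by omega)]
    rfl

lemma tr_eq_iff {u v : Multiplicative (ℕ → ZMod 2)} {w w' : Vertex} (h : tr u w = tr v w)
    (hl : w'.length ≤ w.length) : tr u w' = tr v w' := by
  have h1 : tr (v⁻¹ * u) w = w := by
    rw [map_mul, Equiv.Perm.mul_apply, h, map_inv, Equiv.Perm.inv_eq_iff_eq]
  have h2 : tr (v⁻¹ * u) w' = w' := by
    apply trFun_eq
    intro i hi
    exact trFun_fix h1 i (by omega)
  rw [map_mul, Equiv.Perm.mul_apply, map_inv, Equiv.Perm.inv_eq_iff_eq] at h2
  exact h2

lemma closed : IsClosedSubgroup G := by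
  refine ⟨G_le, fun g hg h => ?_⟩
  choose h hh hh' using h
  have h1 : ∀ k, ∃ u, tr u = h k := fun k => hh k
  choose u hu using h1
  let z : ℕ → Vertex := fun k => List.replicate k 0
  have hz : ∀ k, (z k).length = k := fun k => List.length_replicate
  refine ⟨Multiplicative.ofAdd fun i => (u (i + 1)).toAdd i, ?_⟩
  ext1 w
  rw [← hh' w.length w le_rfl, ← hu, tr_apply, tr_apply]
  apply List.ext_getElem?
  intro i
  rw [trFun_getElem, trFun_getElem]
  by_cases hi : i < w.length
  · have h2 : tr (u w.length) (z (i + 1)) = tr (u (i + 1)) (z (i + 1)) := by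
      rw [hu, hu, hh' _ _ (by rw [hz]; omega), hh' _ _ (by rw [hz])]
    have h3 := congrArg (fun l : Vertex => l[i]?) h2
    simp only [tr_apply, trFun_getElem] at h3
    rw [List.getElem?_eq_getElem (by rw [hz]; omega), Option.map_some, Option.map_some,
      Option.some.injEq, add_right_inj] at h3
    rw [h3]
    rfl
  · rw [List.getElem?_eq_none (by omega)]
    rfl

/-! ### The proportions -/

lemma levelGroup_nonempty (H : Subgroup (Equiv.Perm Vertex)) (k : ℕ) :
    restrictLevel k 1 ∈ levelGroup H k := ⟨1, H.one_mem, rfl⟩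

lemma proportion_eq {H : Subgroup (Equiv.Perm Vertex)} (hH : H ≤ G) (k : ℕ) :
    proportion H k = 1 / (levelGroup H k).ncard := by
  have : {f | f ∈ levelGroup H k ∧ ∃ v, f v = v.1} = {restrictLevel k 1} := by
    ext f
    constructor
    · rintro ⟨⟨g, hg, rfl⟩, v, hv⟩
      obtain ⟨u, rfl⟩ := hH hg
      rw [Set.mem_singleton_iff]
      funext w
      have h1 : tr u v.1 = tr 1 v.1 := by
        rw [map_one]
        exact hv
      have h2 := tr_eq_iff h1 (w' := w.1) (by rw [w.2, v.2])
      rw [map_one] at h2
      exact h2
    · rintro rfl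
      exact ⟨levelGroup_nonempty H k, ⟨List.replicate k 0, List.length_replicate⟩, rfl⟩
  unfold proportion
  rw [this, Set.ncard_singleton]
  simp

lemma finite_level (k : ℕ) : Finite {v : Vertex // v.length = k} :=
  inferInstanceAs (Finite (List.Vector (ZMod 2) k))

lemma levelGroup_finite {H : Subgroup (Equiv.Perm Vertex)} (hH : H ≤ G) (k : ℕ) :
    (levelGroup H k).Finite := by
  have := finite_level k
  have h1 : levelGroup H k ⊆ Set.range
      (fun f : {v : Vertex // v.length = k} → {v : Vertex // v.length = k} => fun v => (f v).1) := by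
    rintro _ ⟨g, hg, rfl⟩
    exact ⟨fun v => ⟨g v, by rw [(G_le (hH hg)).1, v.2]⟩, rfl⟩
  exact (Set.finite_range _).subset h1

lemma ncard_G (k : ℕ) : 2 ^ k ≤ (levelGroup G k).ncard := by
  have := finite_level k
  let o : {v : Vertex // v.length = k} := ⟨List.replicate k 0, List.length_replicate⟩
  have h1 : (Set.range fun v : {v : Vertex // v.length = k} => v.1) ⊆
      (fun f : {v : Vertex // v.length = k} → Vertex => f o) '' levelGroup G k := by
    rintro _ ⟨v, rfl⟩
    let u : ℕ → ZMod 2 := fun i => v.1.getD i 0
    refine ⟨restrictLevel k (tr (Multiplicative.ofAdd u)), ⟨_, ⟨_, rfl⟩, rfl⟩, ?_⟩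
    show trFun u (List.replicate k 0) = v.1
    apply List.ext_getElem?
    intro i
    rw [trFun_getElem, List.getElem?_replicate]
    by_cases hi : i < k
    · rw [if_pos hi, Option.map_some, zero_add]
      show some (v.1.getD i 0) = _
      rw [List.getD_eq_getElem?_getD, List.getElem?_eq_getElem (by rw [v.2]; exact hi)]
      rfl
    · rw [if_neg hi, List.getElem?_eq_none (by rw [v.2]; omega)]
      rfl
  have h2 : (Set.range fun v : {v : Vertex // v.length = k} => v.1).ncard = 2 ^ k := by
    rw [← Set.image_univ, Set.ncard_image_of_injective _ Subtype.val_injective, Set.ncard_univ]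
    have : Nat.card (List.Vector (ZMod 2) k) = 2 ^ k := by
      rw [Nat.card_eq_fintype_card, card_vector, ZMod.card]
    exact this
  rw [← h2]
  exact (Set.ncard_le_ncard h1 ((levelGroup_finite le_rfl k).image _)).trans
    (Set.ncard_image_le (levelGroup_finite le_rfl k))

lemma fpp_G : HasFPP G 0 := by
  have h1 : Tendsto (fun k : ℕ => ((1 : ℝ) / 2) ^ k) atTop (𝓝 0) :=
    tendsto_pow_atTop_nhds_zero_of_lt_one (by norm_num) (by norm_num)
  refine squeeze_zero (fun k => ?_) (fun k => ?_) h1
  · unfold proportion
    positivity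
  · rw [proportion_eq le_rfl, one_div_pow]
    apply one_div_le_one_div_of_le (by positivity)
    exact_mod_cast ncard_G k

lemma fpp_finite {H : Subgroup (Equiv.Perm Vertex)} (hH : H ≤ G) (hfin : Finite H) :
    HasFPP H (1 / Nat.card H) := by
  have h1 : ∀ᶠ k : ℕ in atTop, ∀ g ∈ (H : Set (Equiv.Perm Vertex)),
      ∀ h ∈ (H : Set (Equiv.Perm Vertex)), restrictLevel k g = restrictLevel k h → g = h := by
    have hf : (H : Set (Equiv.Perm Vertex)).Finite := Set.toFinite _
    rw [Filter.eventually_all_finite hf]
    intro g hg
    rw [Filter.eventually_all_finite hf]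
    intro h hh
    by_cases hgh : g = h
    · exact Filter.Eventually.of_forall fun _ _ => hgh
    · have : ∃ w, g w ≠ h w := by
        by_contra hcon
        push Not at hcon
        exact hgh (Equiv.ext hcon)
      obtain ⟨w, hw⟩ := this
      filter_upwards [eventually_ge_atTop w.length] with k hk heq
      exfalso
      apply hw
      obtain ⟨u, rfl⟩ := hH hg
      obtain ⟨v, rfl⟩ := hH hh
      have h2 := congrFun heq ⟨List.replicate k 0, List.length_replicate⟩
      exact tr_eq_iff (w := List.replicate k 0) h2 (by rwa [List.length_replicate])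
  apply tendsto_const_nhds.congr'
  filter_upwards [h1] with k hk
  rw [proportion_eq hH]
  congr 2
  unfold levelGroup
  rw [Set.InjOn.ncard_image (fun g hg h hh => hk g hg h hh)]
  rfl

lemma finite_closure (n : ℕ) (g : Fin n → Equiv.Perm Vertex) (hg : ∀ i, g i ∈ G) :
    Finite (Subgroup.closure (Set.range g)) ∧ Nat.card (Subgroup.closure (Set.range g)) ≤ 2 ^ n := by
  have h1 : ∀ i, ∃ u, tr u = g i := fun i => hg i
  choose u hu using h1
  let φ : Multiplicative (Fin n → ZMod 2) →* Equiv.Perm Vertex :=
    tr.comp (AddMonoidHom.toMultiplicative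
      ((Fintype.linearCombination (ZMod 2) (fun i => (u i).toAdd)).toAddMonoidHom))
  have h2 : Subgroup.closure (Set.range g) ≤ φ.range := by
    rw [Subgroup.closure_le]
    rintro _ ⟨i, rfl⟩
    refine ⟨Multiplicative.ofAdd (Pi.single i 1), ?_⟩
    rw [← hu]
    show tr (Multiplicative.ofAdd (Fintype.linearCombination (ZMod 2) (fun i => (u i).toAdd)
      (Pi.single i 1))) = _
    rw [Fintype.linearCombination_apply_single, one_smul]
    rfl
  have h3 : Finite φ.range := by
    have : Finite (Multiplicative (Fin n → ZMod 2)) := inferInstanceAs (Finite (Fin n → ZMod 2))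
    exact Finite.of_surjective φ.rangeRestrict φ.rangeRestrict_surjective
  have h4 : Nat.card φ.range ≤ 2 ^ n := by
    have h5 := Nat.card_le_card_of_surjective φ.rangeRestrict φ.rangeRestrict_surjective
    have h6 : Nat.card (Multiplicative (Fin n → ZMod 2)) = 2 ^ n := by
      show Nat.card (Fin n → ZMod 2) = _
      simp
    rwa [h6] at h5
  refine ⟨Finite.of_injective _ (Subgroup.inclusion_injective h2), ?_⟩
  exact (Nat.card_le_card_of_injective _ (Subgroup.inclusion_injective h2)).trans h4

/-- There is a closed subgroup `G` of the automorphism group of the binary rooted tree with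
`FPP(G) = 0` such that, for every `n ≥ 1`, every `n`-tuple of elements of `G` generates a subgroup
whose fixed-point proportion exists and is at least `1 / 2 ^ n`. In particular the set of the
tuples whose fixed-point proportion is positive has measure `1` for every probability measure on
`G ^ n`, such as the `n`-th power of the Haar measure of `G`. -/
theorem result : ∃ G : Subgroup (Equiv.Perm Vertex), IsClosedSubgroup G ∧ HasFPP G 0 ∧
    ∀ n : ℕ, 1 ≤ n →
      (∀ g : Fin n → G, ∃ x : ℝ, 1 / 2 ^ n ≤ x ∧
        HasFPP (Subgroup.closure (Set.range fun i => (g i : Equiv.Perm Vertex))) x) ∧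
      ∀ (_ : MeasurableSpace (Fin n → G)) (μ : Measure (Fin n → G)) [IsProbabilityMeasure μ],
        μ {g : Fin n → G | ∃ x : ℝ, 0 < x ∧
          HasFPP (Subgroup.closure (Set.range fun i => (g i : Equiv.Perm Vertex))) x} = 1 := by
  refine ⟨G, closed, fpp_G, fun n _ => ?_⟩
  have key : ∀ g : Fin n → G, ∃ x : ℝ, 1 / 2 ^ n ≤ x ∧
      HasFPP (Subgroup.closure (Set.range fun i => (g i : Equiv.Perm Vertex))) x := by
    intro g
    obtain ⟨h1, h2⟩ := finite_closure n (fun i => (g i : Equiv.Perm Vertex)) (fun i => (g i).2)
    refine ⟨_, ?_, fpp_finite ?_ h1⟩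
    · have h3 : 0 < Nat.card (Subgroup.closure (Set.range fun i => (g i : Equiv.Perm Vertex))) :=
        Nat.card_pos
      apply one_div_le_one_div_of_le
      · exact_mod_cast h3
      · exact_mod_cast h2
    · rw [Subgroup.closure_le]
      rintro _ ⟨i, rfl⟩
      exact (g i).2
  refine ⟨key, fun _ μ _ => ?_⟩
  have h1 : {g : Fin n → G | ∃ x : ℝ, 0 < x ∧
      HasFPP (Subgroup.closure (Set.range fun i => (g i : Equiv.Perm Vertex))) x} = Set.univ := by
    ext g
    obtain ⟨x, hx, hx'⟩ := key g
    simp only [Set.mem_ofPred_eq, Set.mem_univ, iff_true]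
    exact ⟨x, lt_of_lt_of_le (by positivity) hx, hx'⟩
  rw [h1]
  exact measure_univ

end Pool.Agent.Results.MP_12ef09_al.RandomSubgroups
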